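import Pool.Agent.Q226.LBD.Low

/-! # Averages over all parities -/

set_option autoImplicit false

open Finset

namespace Pool.Agent.Q226.LBD

open Pool.Agent.W964.Wd (IsDnf err)

variable {n N : ℕ}

/-- The mean square error, averaged over the parities of `k` variables. -/
lemma sum_mse {D : ℕ} (k : ℕ) (p : Prediction n N)
    (hp : ∀ X x, LabelDegree D fun y => p X y x) :
    (n.choose k : ℝ) - cnt N D ≤ ∑ S : Sub n k, mse p (tg S.1) := by
  classical
  choose c hc using hp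
  have h1 : ∀ X : Fin N → Fin n → Bool, (2 : ℝ) ^ n * ((n.choose k : ℝ) - cnt N D) ≤
      ∑ x : Fin n → Bool, ∑ S : Sub n k,
        (p X (fun i => tg S.1 (X i)) x - sg (tg S.1 x)) ^ 2 := by
    intro X
    have h2 := rank_bound (n := n) k (univ.filter fun T : Finset (Fin N) => T.card ≤ D)
      (fun T S => ∏ t ∈ T, sg (tg S.1 (X t))) (fun x T => c X x T)
    refine h2.trans (le_of_eq ?_)
    refine sum_congr rfl fun x _ => sum_congr rfl fun S _ => ?_
    have h3 : p X (fun i => tg S.1 (X i)) x = _ := hc X x fun i => tg S.1 (X i)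
    rw [h3, sg_tg]
  have h3 : ∑ S : Sub n k, mse p (tg S.1) =
      (∑ X : Fin N → Fin n → Bool, ∑ x : Fin n → Bool, ∑ S : Sub n k,
        (p X (fun i => tg S.1 (X i)) x - sg (tg S.1 x)) ^ 2) / (2 ^ n) ^ (N + 1) := by
    unfold mse
    rw [← sum_div]
    congr 1
    rw [sum_comm]
    refine sum_congr rfl fun X _ => ?_
    rw [sum_comm]
  rw [h3, le_div_iff₀ (by positivity)]
  refine le_trans (le_of_eq ?_) (sum_le_sum fun X _ => h1 X)
  rw [sum_const, card_univ, Fintype.card_fun, Fintype.card_fun, Fintype.card_bool,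
    Fintype.card_fin, Fintype.card_fin, nsmul_eq_mul]
  push_cast
  ring

/-- An abstract correlation bound. -/
lemma corr_bound {Z : Type} [Fintype Z] [Nonempty Z] (p q χ : Z → ℝ) {δ ζ : ℝ} (hδ : 0 ≤ δ)
    (hζ : 0 ≤ ζ) (hχ : ∀ z, χ z ^ 2 = 1) (hq : ∀ z, q z ^ 2 ≤ 1)
    (h1 : ∀ l : ℝ, (1 - δ) * Fintype.card Z ≤ ∑ z, (l * p z - χ z) ^ 2)
    (h2 : ∑ z, (q z - p z) ^ 2 ≤ ζ * Fintype.card Z) :
    ∑ z, q z * χ z ≤ (Real.sqrt ζ + (1 + Real.sqrt ζ) * Real.sqrt δ) * Fintype.card Z := by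
  obtain ⟨m, hm⟩ : ∃ m : ℝ, m = Fintype.card Z := ⟨_, rfl⟩
  have hm0 : 0 < m := by
    rw [hm]
    exact_mod_cast Fintype.card_pos
  rw [← hm] at h1 h2 ⊢
  have hχs : ∑ z, χ z ^ 2 = m := by
    rw [sum_congr rfl fun z _ => hχ z, sum_const, card_univ, nsmul_eq_mul, mul_one, hm]
  have hqs : ∑ z, q z ^ 2 ≤ m := by
    refine (sum_le_sum fun z _ => hq z).trans (le_of_eq ?_)
    rw [sum_const, card_univ, nsmul_eq_mul, mul_one, hm]
  obtain ⟨P, hP⟩ : ∃ P, P = ∑ z, p z ^ 2 := ⟨_, rfl⟩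
  obtain ⟨Q, hQ⟩ : ∃ Q, Q = ∑ z, p z * χ z := ⟨_, rfl⟩
  have hP0 : 0 ≤ P := by rw [hP]; exact sum_nonneg fun z _ => sq_nonneg _
  -- the quadratic polynomial
  have h3 : ∀ l : ℝ, 0 ≤ P * (l * l) + (-2 * Q) * l + δ * m := by
    intro l
    have h4 : ∑ z, (l * p z - χ z) ^ 2 = P * (l * l) + (-2 * Q) * l + m := by
      rw [hP, hQ, sum_mul, mul_sum, sum_mul, ← hχs, ← sum_add_distrib, ← sum_add_distrib]
      exact sum_congr rfl fun z _ => by ring
    have h5 := h1 l
    rw [h4] at h5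
    linarith
  have h4 := discrim_le_zero h3
  unfold discrim at h4
  have h5 : Q ^ 2 ≤ P * (δ * m) := by linarith
  -- the norm of p
  have hs : Real.sqrt P ≤ (1 + Real.sqrt ζ) * Real.sqrt m := by
    -- Minkowski
    obtain ⟨u, hu⟩ : ∃ u, u = ∑ z, (q z - p z) ^ 2 := ⟨_, rfl⟩
    obtain ⟨t, ht⟩ : ∃ t, t = ∑ z, q z ^ 2 := ⟨_, rfl⟩
    have hu0 : 0 ≤ u := by rw [hu]; exact sum_nonneg fun z _ => sq_nonneg _
    have ht0 : 0 ≤ t := by rw [ht]; exact sum_nonneg fun z _ => sq_nonneg _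
    have hcs : (∑ z, q z * (q z - p z)) ^ 2 ≤ t * u := by
      rw [ht, hu]
      exact sum_mul_sq_le_sq_mul_sq _ _ _
    have hPe : P = t + u - 2 * ∑ z, q z * (q z - p z) := by
      rw [hP, ht, hu, mul_sum, ← sum_add_distrib, ← sum_sub_distrib]
      exact sum_congr rfl fun z _ => by ring
    have h6 : |∑ z, q z * (q z - p z)| ≤ Real.sqrt t * Real.sqrt u := by
      rw [← Real.sqrt_mul ht0]
      exact Real.abs_le_sqrt hcs
    have h7 : P ≤ (Real.sqrt t + Real.sqrt u) ^ 2 := by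
      have h8 := neg_abs_le (∑ z, q z * (q z - p z))
      have h9 : (Real.sqrt t + Real.sqrt u) ^ 2 = t + u + 2 * (Real.sqrt t * Real.sqrt u) := by
        rw [add_sq, Real.sq_sqrt ht0, Real.sq_sqrt hu0]
        ring
      rw [hPe, h9]
      linarith
    have h8 : Real.sqrt P ≤ Real.sqrt t + Real.sqrt u := by
      refine Real.sqrt_le_iff.mpr ⟨by positivity, h7⟩
    have h9 : Real.sqrt t ≤ Real.sqrt m := Real.sqrt_le_sqrt (by rw [ht]; exact hqs)
    have h10 : Real.sqrt u ≤ Real.sqrt ζ * Real.sqrt m := by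
      rw [← Real.sqrt_mul hζ]
      exact Real.sqrt_le_sqrt (by rw [hu]; exact h2)
    linarith
  have h6 : Q ≤ (1 + Real.sqrt ζ) * Real.sqrt δ * m := by
    have h7 : Q ≤ Real.sqrt (P * (δ * m)) := Real.le_sqrt_of_sq_le h5
    rw [Real.sqrt_mul hP0, Real.sqrt_mul hδ] at h7
    have h8 : Real.sqrt m * Real.sqrt m = m := Real.mul_self_sqrt hm0.le
    calc Q ≤ Real.sqrt P * (Real.sqrt δ * Real.sqrt m) := h7
      _ ≤ ((1 + Real.sqrt ζ) * Real.sqrt m) * (Real.sqrt δ * Real.sqrt m) :=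
          mul_le_mul_of_nonneg_right hs (by positivity)
      _ = (1 + Real.sqrt ζ) * Real.sqrt δ * (Real.sqrt m * Real.sqrt m) := by ring
      _ = _ := by rw [h8]
  have h7 : ∑ z, (q z - p z) * χ z ≤ Real.sqrt ζ * m := by
    have h8 := sum_mul_sq_le_sq_mul_sq univ (fun z => q z - p z) χ
    rw [hχs] at h8
    have h9 : (∑ z, (q z - p z) * χ z) ^ 2 ≤ (ζ * m) * m :=
      h8.trans (mul_le_mul_of_nonneg_right h2 hm0.le)
    have h10 := Real.le_sqrt_of_sq_le h9
    have h11 : Real.sqrt (ζ * m * m) = Real.sqrt ζ * m := by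
      rw [mul_assoc, Real.sqrt_mul hζ, Real.sqrt_mul_self hm0.le]
    rwa [h11] at h10
  have h8 : ∑ z, q z * χ z = Q + ∑ z, (q z - p z) * χ z := by
    rw [hQ, ← sum_add_distrib]
    exact sum_congr rfl fun z _ => by ring
  rw [h8]
  calc Q + ∑ z, (q z - p z) * χ z ≤ (1 + Real.sqrt ζ) * Real.sqrt δ * m + Real.sqrt ζ * m :=
        add_le_add h6 h7
    _ = _ := by ring

lemma labelDegree_smul {D : ℕ} (l : ℝ) {f : (Fin N → Bool) → ℝ} (h : LabelDegree D f) :
    LabelDegree D fun y => l * f y := by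
  obtain ⟨c, hc⟩ := h
  refine ⟨fun T => l * c T, fun y => ?_⟩
  show l * f y = ∑ T ∈ _, l * c T * _
  rw [hc y, mul_sum]
  exact sum_congr rfl fun T _ => by ring

/-- The error and the correlation. -/
lemma sum_sg_mul (f h : Hyp n) :
    ∑ x : Fin n → Bool, sg (h x) * sg (f x) = 2 ^ n * (1 - 2 * err f h) := by
  have h1 : ∀ x : Fin n → Bool, sg (h x) * sg (f x) =
      1 - 2 * (if h x ≠ f x then (1 : ℝ) else 0) := by
    intro x
    unfold sg
    cases h x <;> cases f x <;> simp <;> norm_num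
  rw [sum_congr rfl fun x _ => h1 x, sum_sub_distrib, ← mul_sum, sum_boole, sum_const, card_univ,
    Fintype.card_fun, Fintype.card_fin, Fintype.card_bool, nsmul_eq_mul, mul_one]
  unfold err
  push_cast
  have h2 : (2 : ℝ) ^ n ≠ 0 := by positivity
  field_simp

/-- The mean error is large for some parity. -/
theorem low {R : Type} [Fintype R] [Nonempty R] {D : ℕ} {k s : ℕ} {ζ : ℝ} (hk : 1 ≤ k)
    (hkn : k ≤ n) (hs : 2 ^ (k - 1) + 1 ≤ s) (hζ : 0 ≤ ζ) (A : Learner R n N)
    (p : Prediction n N) (hp : ∀ X x, LabelDegree D fun y => p X y x)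
    (hd : ∀ f : Hyp n, IsDnf s f → dist (meanLabel A) p f ≤ ζ) :
    ∃ f : Hyp n, IsDnf s f ∧
      1 / 2 - (Real.sqrt ζ + (1 + Real.sqrt ζ) * Real.sqrt (cnt N D / n.choose k)) / 2 ≤
        meanErr A f := by
  classical
  have hC : 0 < n.choose k := Nat.choose_pos hkn
  have hCR : (0 : ℝ) < n.choose k := by exact_mod_cast hC
  have hne : Nonempty (Sub n k) := by
    rw [← Fintype.card_pos_iff, card_Sub]
    exact hC
  obtain ⟨W, hW⟩ : ∃ W : ℝ, W = (2 ^ n) ^ (N + 1) := ⟨_, rfl⟩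
  have hW0 : 0 < W := by rw [hW]; positivity
  have hR : (0 : ℝ) < Fintype.card R := by exact_mod_cast Fintype.card_pos
  have hcard : (Fintype.card (Sub n k × (Fin N → Fin n → Bool) × (Fin n → Bool)) : ℝ) =
      n.choose k * W := by
    rw [Fintype.card_prod, Fintype.card_prod, card_Sub, Fintype.card_fun, Fintype.card_fun,
      Fintype.card_bool, Fintype.card_fin, Fintype.card_fin, hW]
    push_cast
    ring
  have hsum : ∀ F : Sub n k → (Fin N → Fin n → Bool) → (Fin n → Bool) → ℝ,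
      ∑ z : Sub n k × (Fin N → Fin n → Bool) × (Fin n → Bool), F z.1 z.2.1 z.2.2 =
        ∑ S, ∑ X, ∑ x, F S X x := by
    intro F
    rw [Fintype.sum_prod_type]
    refine sum_congr rfl fun S _ => ?_
    rw [Fintype.sum_prod_type]
  have hmain := corr_bound (Z := Sub n k × (Fin N → Fin n → Bool) × (Fin n → Bool))
    (fun z => p z.2.1 (fun i => tg z.1.1 (z.2.1 i)) z.2.2)
    (fun z => meanLabel A z.2.1 (fun i => tg z.1.1 (z.2.1 i)) z.2.2)
    (fun z => sg (tg z.1.1 z.2.2)) (δ := cnt N D / n.choose k) (ζ := ζ) (by positivity) hζ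
    (fun z => sg_sq _)
    (by
      intro z
      unfold meanLabel
      rw [div_pow, div_le_one (by positivity)]
      rw [sq_le_sq, abs_of_pos hR]
      refine (abs_sum_le_sum_abs _ _).trans (le_of_eq ?_)
      have : ∀ r : R, |sg (A r z.2.1 (fun i => tg z.1.1 (z.2.1 i)) z.2.2)| = 1 := by
        intro r
        rcases sg_cases (A r z.2.1 (fun i => tg z.1.1 (z.2.1 i)) z.2.2) with h | h <;>
          rw [h] <;> norm_num
      rw [sum_congr rfl fun r _ => this r, sum_const, card_univ, nsmul_eq_mul, mul_one])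
    (by
      intro l
      rw [hcard, hsum fun S X x => (l * p X (fun i => tg S.1 (X i)) x - sg (tg S.1 x)) ^ 2]
      have h1 := sum_mse k (fun X y x => l * p X y x) fun X x => labelDegree_smul l (hp X x)
      have h2 : ∑ S : Sub n k, mse (fun X y x => l * p X y x) (tg S.1) =
          (∑ S : Sub n k, ∑ X : Fin N → Fin n → Bool, ∑ x : Fin n → Bool,
            (l * p X (fun i => tg S.1 (X i)) x - sg (tg S.1 x)) ^ 2) / W := by
        unfold mse
        rw [← sum_div, hW]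
      rw [h2, le_div_iff₀ hW0] at h1
      refine le_trans (le_of_eq ?_) h1
      field_simp)
    (by
      rw [hcard, hsum fun S X x => (meanLabel A X (fun i => tg S.1 (X i)) x -
        p X (fun i => tg S.1 (X i)) x) ^ 2]
      have h1 : ∀ S : Sub n k, ∑ X : Fin N → Fin n → Bool, ∑ x : Fin n → Bool,
          (meanLabel A X (fun i => tg S.1 (X i)) x - p X (fun i => tg S.1 (X i)) x) ^ 2 ≤
            ζ * W := by
        intro S
        have h2 := hd (tg S.1) (tg_dnf S.2 hk hs)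
        unfold dist at h2
        rw [← hW, div_le_iff₀ hW0] at h2
        exact h2
      refine (sum_le_sum fun S _ => h1 S).trans (le_of_eq ?_)
      rw [sum_const, card_univ, card_Sub, nsmul_eq_mul]
      ring)
  rw [hcard, hsum fun S X x => meanLabel A X (fun i => tg S.1 (X i)) x * sg (tg S.1 x)] at hmain
  obtain ⟨B, hB⟩ : ∃ B, B = Real.sqrt ζ + (1 + Real.sqrt ζ) * Real.sqrt (cnt N D / n.choose k) :=
    ⟨_, rfl⟩
  rw [← hB] at hmain ⊢
  have herr : ∀ S : Sub n k, ∑ X : Fin N → Fin n → Bool, ∑ x : Fin n → Bool,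
      meanLabel A X (fun i => tg S.1 (X i)) x * sg (tg S.1 x) =
        W * (1 - 2 * meanErr A (tg S.1)) := by
    intro S
    unfold meanLabel meanErr
    have h1 : ∀ X : Fin N → Fin n → Bool, ∑ x : Fin n → Bool,
        (∑ r, sg (A r X (fun i => tg S.1 (X i)) x)) / (Fintype.card R : ℝ) * sg (tg S.1 x) =
        (∑ r, 2 ^ n * (1 - 2 * err (tg S.1) (A r X fun i => tg S.1 (X i)))) /
          (Fintype.card R : ℝ) := by
      intro X
      have h2 : ∀ x : Fin n → Bool,
          (∑ r, sg (A r X (fun i => tg S.1 (X i)) x)) / (Fintype.card R : ℝ) * sg (tg S.1 x) =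
          (∑ r, sg (A r X (fun i => tg S.1 (X i)) x) * sg (tg S.1 x)) /
            (Fintype.card R : ℝ) := by
        intro x
        rw [div_mul_eq_mul_div, sum_mul]
      rw [sum_congr rfl fun x _ => h2 x, ← sum_div, sum_comm]
      congr 1
      exact sum_congr rfl fun r _ => sum_sg_mul _ _
    rw [sum_congr rfl fun X _ => h1 X, ← sum_div, sum_comm]
    have h3 : ∀ r : R, ∑ X : Fin N → Fin n → Bool,
        (2 : ℝ) ^ n * (1 - 2 * err (tg S.1) (A r X fun i => tg S.1 (X i))) =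
        W - 2 * 2 ^ n * ∑ X : Fin N → Fin n → Bool, err (tg S.1) (A r X fun i => tg S.1 (X i)) := by
      intro r
      rw [← mul_sum, sum_sub_distrib, ← mul_sum, sum_const, card_univ, Fintype.card_fun,
        Fintype.card_fun, Fintype.card_bool, Fintype.card_fin, Fintype.card_fin, nsmul_eq_mul, hW]
      push_cast
      ring
    rw [sum_congr rfl fun r _ => h3 r, sum_sub_distrib, sum_const, card_univ, nsmul_eq_mul,
      ← mul_sum, hW]
    field_simp
    ring
  by_contra hcon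
  push Not at hcon
  have h1 : ∑ S : Sub n k, ∑ X : Fin N → Fin n → Bool, ∑ x : Fin n → Bool,
      meanLabel A X (fun i => tg S.1 (X i)) x * sg (tg S.1 x) >
        ∑ _S : Sub n k, B * W := by
    refine sum_lt_sum_of_nonempty univ_nonempty fun S _ => ?_
    rw [herr S, mul_comm W]
    have h2 := hcon (tg S.1) (tg_dnf S.2 hk hs)
    exact mul_lt_mul_of_pos_right (by linarith) hW0
  rw [sum_const, card_univ, card_Sub, nsmul_eq_mul] at h1
  have h2 : B * ((n.choose k : ℝ) * W) = (n.choose k : ℝ) * (B * W) := by ring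
  linarith

end Pool.Agent.Q226.LBD
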