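import Pool.Agent.W964.Wd.DnfDefs

/-!
# Predictions from labelled examples: definitions

`IsDnf s f`, `err f h`: `Pool/Agent/W964/Wd/DnfDefs.lean`.
-/

set_option autoImplicit false

namespace Pool.Agent.Q226.LBD

open Finset Pool.Agent.W964.Wd

/-- `false ↦ 1`, `true ↦ -1` -/
def sg (b : Bool) : ℝ := if b = true then -1 else 1

/-- Boolean functions and hypotheses -/
abbrev Hyp (n : ℕ) : Type := (Fin n → Bool) → Bool

/-- `p`, a real function of `N` labels, is a polynomial of degree at most `D` in the `±1`-valued
labels. -/
def LabelDegree {N : ℕ} (D : ℕ) (p : (Fin N → Bool) → ℝ) : Prop :=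
  ∃ c : Finset (Fin N) → ℝ, ∀ y : Fin N → Bool,
    p y = ∑ T ∈ univ.filter (fun T : Finset (Fin N) => T.card ≤ D), c T * ∏ t ∈ T, sg (y t)

/-- Real predictions `p X y x` of the `±1`-valued label of the fresh point `x` from `N` examples with
the points `X` and the labels `y`. -/
abbrev Prediction (n N : ℕ) : Type :=
  (Fin N → Fin n → Bool) → (Fin N → Bool) → (Fin n → Bool) → ℝ

/-- A randomized learner: a member of the finite set `R` is chosen uniformly, and `A r X y` is the
hypothesis of the member `r` for `N` examples with the points `X` and the labels `y`. -/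
abbrev Learner (R : Type) (n N : ℕ) : Type :=
  R → (Fin N → Fin n → Bool) → (Fin N → Bool) → Hyp n

/-- The mean square error of the prediction `p` for the target `f`: all the points are independent
and uniformly distributed. -/
noncomputable def mse {n N : ℕ} (p : Prediction n N) (f : Hyp n) : ℝ :=
  (∑ X : Fin N → Fin n → Bool, ∑ x : Fin n → Bool,
    (p X (fun i => f (X i)) x - sg (f x)) ^ 2) / (2 ^ n) ^ (N + 1)

/-- The mean value of the `±1`-valued label which the hypothesis of the learner gives to `x`. -/
noncomputable def meanLabel {R : Type} [Fintype R] {n N : ℕ} (A : Learner R n N) :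
    Prediction n N :=
  fun X y x => (∑ r, sg (A r X y x)) / Fintype.card R

/-- The mean square distance of two predictions for the target `f`. -/
noncomputable def dist {n N : ℕ} (p q : Prediction n N) (f : Hyp n) : ℝ :=
  (∑ X : Fin N → Fin n → Bool, ∑ x : Fin n → Bool,
    (p X (fun i => f (X i)) x - q X (fun i => f (X i)) x) ^ 2) / (2 ^ n) ^ (N + 1)

/-- The mean error of the hypothesis of the learner for the target `f`. -/
noncomputable def meanErr {R : Type} [Fintype R] {n N : ℕ} (A : Learner R n N) (f : Hyp n) : ℝ :=
  (∑ r, ∑ X : Fin N → Fin n → Bool, err f (A r X fun i => f (X i))) /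
    (Fintype.card R * (2 ^ n) ^ N)

end Pool.Agent.Q226.LBD
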