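import Pool.Agent.Q226.LBD.Four

/-! # Fourier weight of DNF formulas on large sets -/

set_option autoImplicit false

open Finset

namespace Pool.Agent.Q226.LBD

open Pool.Agent.W964.Wd (IsDnf err)

variable {n : ℕ}

lemma card_sat (t : Finset (Fin n × Bool)) :
    (univ.filter fun x : Fin n → Bool => ∀ p ∈ t, x p.1 = p.2).card * 2 ^ t.card ≤ 2 ^ n := by
  classical
  rcases (univ.filter fun x : Fin n → Bool => ∀ p ∈ t, x p.1 = p.2).eq_empty_or_nonempty with
    h | ⟨x0, h0⟩
  · rw [h, card_empty, zero_mul]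
    positivity
  · have h1 : ∀ p ∈ t, x0 p.1 = p.2 := (mem_filter.mp h0).2
    obtain ⟨J, hJ⟩ : ∃ J : Finset (Fin n), J = t.image Prod.fst := ⟨_, rfl⟩
    have hJc : J.card = t.card := by
      rw [hJ]
      refine card_image_of_injOn ?_
      intro p hp q hq hpq
      have hp1 := h1 p hp
      have hq1 := h1 q hq
      refine Prod.ext hpq ?_
      rw [← hp1, ← hq1, hpq]
    have hsub : (univ.filter fun x : Fin n → Bool => ∀ p ∈ t, x p.1 = p.2) ⊆
        Fintype.piFinset fun i => if i ∈ J then {x0 i} else univ := by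
      intro x hx
      rw [Fintype.mem_piFinset]
      intro i
      have hx1 := (mem_filter.mp hx).2
      split_ifs with hi
      · rw [hJ, mem_image] at hi
        obtain ⟨p, hp, rfl⟩ := hi
        rw [mem_singleton, hx1 p hp, h1 p hp]
      · exact mem_univ _
    have hc : (Fintype.piFinset fun i : Fin n =>
        if i ∈ J then {x0 i} else (univ : Finset Bool)).card = 2 ^ (n - J.card) := by
      rw [Fintype.card_piFinset]
      have h2 : ∀ i : Fin n, (if i ∈ J then {x0 i} else (univ : Finset Bool)).card =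
          if i ∈ J then 1 else 2 := by
        intro i
        split_ifs
        · exact card_singleton _
        · rw [card_univ, Fintype.card_bool]
      rw [prod_congr rfl fun i _ => h2 i, prod_ite, prod_const_one, one_mul, prod_const]
      congr 1
      have h3 : (univ.filter fun i => i ∉ J) = Jᶜ := by
        ext i
        simp
      rw [h3, card_compl, Fintype.card_fin]
    have hJn : J.card ≤ n := by
      have := card_le_univ J
      rwa [Fintype.card_fin] at this
    calc _ ≤ 2 ^ (n - J.card) * 2 ^ t.card :=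
          Nat.mul_le_mul_right _ ((card_le_card hsub).trans hc.le)
      _ = 2 ^ n := by
          rw [← hJc, ← pow_add]
          congr 1
          omega

/-- the value of the terms of width at most `w` -/
noncomputable def trunc {r : ℕ} (t : Fin r → Finset (Fin n × Bool)) (w : ℕ) : Hyp n :=
  fun x => by
    classical
    exact decide (∃ i, (t i).card ≤ w ∧ ∀ p ∈ t i, x p.1 = p.2)

lemma trunc_iff {r : ℕ} (t : Fin r → Finset (Fin n × Bool)) (w : ℕ) (x : Fin n → Bool) :
    trunc t w x = true ↔ ∃ i, (t i).card ≤ w ∧ ∀ p ∈ t i, x p.1 = p.2 := by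
  unfold trunc
  simp

lemma trunc_err {r s : ℕ} (hr : r + 1 ≤ s) (t : Fin r → Finset (Fin n × Bool)) (w : ℕ) {f : Hyp n}
    (hf : ∀ x, f x = true ↔ ∃ i, ∀ p ∈ t i, x p.1 = p.2) :
    ((univ.filter fun x => f x ≠ trunc t w x).card : ℝ) * 2 ^ (w + 1) ≤ s * 2 ^ n := by
  classical
  have hsub : (univ.filter fun x => f x ≠ trunc t w x) ⊆
      (univ.filter fun i => w < (t i).card).biUnion fun i =>
        univ.filter fun x : Fin n → Bool => ∀ p ∈ t i, x p.1 = p.2 := by
    intro x hx
    have hx1 := (mem_filter.mp hx).2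
    rw [mem_biUnion]
    have h1 : f x = true := by
      by_contra h
      have h2 : trunc t w x = true := by
        revert hx1 h
        cases f x <;> cases trunc t w x <;> simp
      obtain ⟨i, _, hi⟩ := (trunc_iff t w x).mp h2
      exact h ((hf x).mpr ⟨i, hi⟩)
    have h2 : ¬ trunc t w x = true := by
      intro h
      exact hx1 (h1.trans h.symm)
    obtain ⟨i, hi⟩ := (hf x).mp h1
    refine ⟨i, ?_, by simpa using hi⟩
    rw [mem_filter]
    refine ⟨mem_univ _, ?_⟩
    by_contra h
    exact h2 ((trunc_iff t w x).mpr ⟨i, not_lt.mp h, hi⟩)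
  have h1 : (univ.filter fun x => f x ≠ trunc t w x).card * 2 ^ (w + 1) ≤ s * 2 ^ n := by
    calc _ ≤ (∑ i ∈ univ.filter (fun i => w < (t i).card),
          (univ.filter fun x : Fin n → Bool => ∀ p ∈ t i, x p.1 = p.2).card) * 2 ^ (w + 1) :=
          Nat.mul_le_mul_right _ ((card_le_card hsub).trans card_biUnion_le)
      _ = ∑ i ∈ univ.filter (fun i => w < (t i).card),
          (univ.filter fun x : Fin n → Bool => ∀ p ∈ t i, x p.1 = p.2).card * 2 ^ (w + 1) :=
          sum_mul _ _ _
      _ ≤ ∑ i ∈ univ.filter (fun i => w < (t i).card), 2 ^ n := by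
          refine sum_le_sum fun i hi => ?_
          refine le_trans ?_ (card_sat (t i))
          refine Nat.mul_le_mul_left _ (Nat.pow_le_pow_right (by norm_num) ?_)
          exact (mem_filter.mp hi).2
      _ ≤ ∑ _i : Fin r, 2 ^ n := sum_le_sum_of_subset (filter_subset _ _)
      _ = r * 2 ^ n := by rw [sum_const, card_univ, Fintype.card_fin, smul_eq_mul]
      _ ≤ s * 2 ^ n := Nat.mul_le_mul_right _ (by omega)
  exact_mod_cast h1

lemma card_flip (g : Hyp n) (i : Fin n) :
    (univ.filter fun x => g x ≠ g (flip i x)).card =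
      2 * (univ.filter fun x => g x = true ∧ g (flip i x) = false).card := by
  classical
  have h1 : (univ.filter fun x => g x ≠ g (flip i x)) =
      (univ.filter fun x => g x = true ∧ g (flip i x) = false) ∪
        (univ.filter fun x => g x = false ∧ g (flip i x) = true) := by
    ext x
    simp only [mem_filter, mem_univ, true_and, mem_union]
    cases g x <;> cases g (flip i x) <;> simp
  have h2 : (univ.filter fun x => g x = false ∧ g (flip i x) = true).card =
      (univ.filter fun x => g x = true ∧ g (flip i x) = false).card := by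
    refine card_bij' (fun x _ => flip i x) (fun x _ => flip i x) ?_ ?_ ?_ ?_
    · intro x hx
      simp only [mem_filter, mem_univ, true_and, flip_flip] at hx ⊢
      exact ⟨hx.2, hx.1⟩
    · intro x hx
      simp only [mem_filter, mem_univ, true_and, flip_flip] at hx ⊢
      exact ⟨hx.2, hx.1⟩
    · intro x _
      exact flip_flip i x
    · intro x _
      exact flip_flip i x
  rw [h1, card_union_of_disjoint, h2]
  · ring
  · rw [disjoint_left]
    intro x hx hx'
    have h3 := (mem_filter.mp hx).2.1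
    have h4 := (mem_filter.mp hx').2.1
    rw [h3] at h4
    exact absurd h4 (by simp)

lemma trunc_infl {r : ℕ} (t : Fin r → Finset (Fin n × Bool)) (w : ℕ) :
    ∑ i : Fin n, ((univ.filter fun x => trunc t w x ≠ trunc t w (flip i x)).card : ℝ) ≤
      2 * w * 2 ^ n := by
  classical
  have h1 : ∑ i : Fin n, (univ.filter fun x => trunc t w x = true ∧
      trunc t w (flip i x) = false).card ≤ w * 2 ^ n := by
    have h2 : ∑ i : Fin n, (univ.filter fun x => trunc t w x = true ∧
        trunc t w (flip i x) = false).card =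
        ∑ x : Fin n → Bool, (univ.filter fun i => trunc t w x = true ∧
        trunc t w (flip i x) = false).card := by
      simp only [card_filter]
      rw [sum_comm]
    rw [h2]
    calc _ ≤ ∑ _x : Fin n → Bool, w := ?_
      _ = w * 2 ^ n := by
          rw [sum_const, card_univ, Fintype.card_fun, Fintype.card_bool, Fintype.card_fin,
            smul_eq_mul, mul_comm]
    refine sum_le_sum fun x _ => ?_
    by_cases hx : trunc t w x = true
    · obtain ⟨j, hj, hj2⟩ := (trunc_iff t w x).mp hx
      refine le_trans (card_le_card (t := (t j).image Prod.fst) ?_) (card_image_le.trans hj)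
      intro i hi
      have hi1 := (mem_filter.mp hi).2.2
      by_contra hcon
      have h3 : trunc t w (flip i x) = true := by
        rw [trunc_iff]
        refine ⟨j, hj, fun p hp => ?_⟩
        unfold flip
        rw [Function.update_of_ne]
        · exact hj2 p hp
        · rintro h4
          exact hcon (mem_image.mpr ⟨p, hp, h4⟩)
      rw [h3] at hi1
      exact absurd hi1 (by simp)
    · have : (univ.filter fun i => trunc t w x = true ∧ trunc t w (flip i x) = false) = ∅ := by
        ext i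
        simp [hx]
      rw [this]
      simp
  have h3 : ∑ i : Fin n, ((univ.filter fun x => trunc t w x ≠ trunc t w (flip i x)).card : ℝ) =
      2 * ((∑ i : Fin n, (univ.filter fun x => trunc t w x = true ∧
        trunc t w (flip i x) = false).card : ℕ) : ℝ) := by
    push_cast
    rw [mul_sum]
    refine sum_congr rfl fun i _ => ?_
    rw [card_flip]
    push_cast
    rfl
  rw [h3]
  have h4 : ((∑ i : Fin n, (univ.filter fun x => trunc t w x = true ∧
        trunc t w (flip i x) = false).card : ℕ) : ℝ) ≤ ((w * 2 ^ n : ℕ) : ℝ) := by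
    exact_mod_cast h1
  push_cast at h4 ⊢
  linarith

/-- The Fourier weight of a DNF formula on large sets. -/
lemma dnf_weight {s : ℕ} {f : Hyp n} (hf : IsDnf s f) (w d : ℕ) :
    1 - ∑ T ∈ univ.filter (fun T : Finset (Fin n) => T.card ≤ d), fc (fun x => sg (f x)) T ^ 2 ≤
      4 * w / (d + 1) + 4 * s / 2 ^ w := by
  classical
  obtain ⟨r, t, hr, ht⟩ := hf
  obtain ⟨𝒯, h𝒯⟩ : ∃ 𝒯, 𝒯 = univ.filter (fun T : Finset (Fin n) => T.card ≤ d) := ⟨_, rfl⟩
  obtain ⟨g, hg⟩ : ∃ g, g = trunc t w := ⟨_, rfl⟩
  have h2n : (0 : ℝ) < 2 ^ n := by positivity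
  have hsq : ∀ h : Hyp n, ∑ x, sg (h x) ^ 2 = (2 : ℝ) ^ n := by
    intro h
    rw [sum_congr rfl fun x _ => sg_sq _, sum_const, card_univ, Fintype.card_fun,
      Fintype.card_bool, Fintype.card_fin, nsmul_eq_mul, mul_one]
    push_cast
    rfl
  -- the weight of g
  have hg1 : 2 ^ n * (1 - ∑ T ∈ 𝒯, fc (fun x => sg (g x)) T ^ 2) ≤ 2 ^ n * (2 * w / (d + 1)) := by
    have h1 := influence g d
    have h2 : (2 : ℝ) ^ n * ((d + 1) * ∑ T ∈ univ.filter (fun T : Finset (Fin n) => d < T.card),
        fc (fun x => sg (g x)) T ^ 2) ≤ 2 * w * 2 ^ n :=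
      h1.trans (by rw [hg]; exact trunc_infl t w)
    have h3 := parseval fun x => sg (g x)
    rw [hsq g] at h3
    have h4 : ∑ T, fc (fun x => sg (g x)) T ^ 2 = 1 := by
      have : (2 : ℝ) ^ n * ∑ T, fc (fun x => sg (g x)) T ^ 2 = 2 ^ n * 1 := by rw [h3, mul_one]
      exact mul_left_cancel₀ h2n.ne' this
    have h5 : ∑ T ∈ univ.filter (fun T : Finset (Fin n) => d < T.card),
        fc (fun x => sg (g x)) T ^ 2 = 1 - ∑ T ∈ 𝒯, fc (fun x => sg (g x)) T ^ 2 := by
      rw [← h4, h𝒯, ← sum_filter_add_sum_filter_not univ (fun T : Finset (Fin n) => T.card ≤ d)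
        (fun T => fc (fun x => sg (g x)) T ^ 2)]
      simp only [not_le]
      ring
    rw [h5] at h2
    refine mul_le_mul_of_nonneg_left ?_ h2n.le
    rw [le_div_iff₀ (by positivity)]
    have h6 : (2 : ℝ) ^ n * ((d + 1) * (1 - ∑ T ∈ 𝒯, fc (fun x => sg (g x)) T ^ 2)) ≤
        2 ^ n * (2 * w) := by
      refine h2.trans (le_of_eq ?_)
      ring
    have h7 := le_of_mul_le_mul_left h6 h2n
    linarith
  -- comparison
  have h1 := pyth (fun x => sg (f x)) 𝒯 (fc fun x => sg (g x))
  have h2 := pyth (fun x => sg (g x)) 𝒯 (fc fun x => sg (g x))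
  rw [hsq f] at h1
  rw [hsq g] at h2
  have h3 : ∑ T ∈ 𝒯, (fc (fun x => sg (g x)) T - fc (fun x => sg (g x)) T) ^ 2 = 0 :=
    sum_eq_zero fun T _ => by ring
  rw [h3, mul_zero, zero_add] at h2
  have h4 : ∑ x, (∑ T ∈ 𝒯, fc (fun x => sg (g x)) T * ch T x - sg (f x)) ^ 2 ≤
      2 * ∑ x, (∑ T ∈ 𝒯, fc (fun x => sg (g x)) T * ch T x - sg (g x)) ^ 2 +
        8 * ((univ.filter fun x => f x ≠ g x).card : ℝ) := by
    rw [card_filter, Nat.cast_sum, mul_sum, mul_sum, ← sum_add_distrib]
    refine sum_le_sum fun x _ => ?_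
    have h5 : (sg (g x) - sg (f x)) ^ 2 = 4 * ((if f x ≠ g x then 1 else 0 : ℕ) : ℝ) := by
      cases f x <;> cases g x <;> simp [sg] <;> norm_num
    nlinarith [sq_nonneg ((∑ T ∈ 𝒯, fc (fun x => sg (g x)) T * ch T x - sg (g x)) -
      (sg (g x) - sg (f x)))]
  have h5 : 0 ≤ 2 ^ n * ∑ T ∈ 𝒯, (fc (fun x => sg (g x)) T - fc (fun x => sg (f x)) T) ^ 2 :=
    mul_nonneg h2n.le (sum_nonneg fun T _ => sq_nonneg _)
  have h6 := trunc_err hr t w ht
  rw [← hg] at h6
  rw [← h𝒯]
  have h7 : ((univ.filter fun x => f x ≠ g x).card : ℝ) ≤ s * 2 ^ n / 2 ^ (w + 1) := by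
    rw [le_div_iff₀ (by positivity)]
    exact h6
  have h8 : 2 ^ n * (1 - ∑ T ∈ 𝒯, fc (fun x => sg (f x)) T ^ 2) ≤
      2 ^ n * (4 * w / (d + 1) + 4 * s / 2 ^ w) := by
    have h9 : 8 * (s * 2 ^ n / 2 ^ (w + 1) : ℝ) = 2 ^ n * (4 * s / 2 ^ w) := by
      rw [pow_succ]
      field_simp
      ring
    have h10 : (2 : ℝ) ^ n * (4 * w / (d + 1)) = 2 * (2 ^ n * (2 * w / (d + 1))) := by ring
    rw [mul_add, ← h9, h10]
    linarith
  exact le_of_mul_le_mul_left h8 h2n

end Pool.Agent.Q226.LBD
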