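import Pool.Agent.Q226.LBD.Low

/-! # Fourier coefficients -/

set_option autoImplicit false

open Finset

namespace Pool.Agent.Q226.LBD

open Pool.Agent.W964.Wd (IsDnf err)

variable {n : ℕ}

/-- the Fourier coefficient -/
noncomputable def fc (F : (Fin n → Bool) → ℝ) (T : Finset (Fin n)) : ℝ :=
  (∑ x, F x * ch T x) / 2 ^ n

lemma sum_mul_ch (F : (Fin n → Bool) → ℝ) (T : Finset (Fin n)) :
    ∑ x, F x * ch T x = 2 ^ n * fc F T := by
  unfold fc
  field_simp

/-- Pythagoras -/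
lemma pyth (F : (Fin n → Bool) → ℝ) (𝒯 : Finset (Finset (Fin n))) (b : Finset (Fin n) → ℝ) :
    ∑ x, (∑ T ∈ 𝒯, b T * ch T x - F x) ^ 2 =
      2 ^ n * ∑ T ∈ 𝒯, (b T - fc F T) ^ 2 + (∑ x, F x ^ 2 - 2 ^ n * ∑ T ∈ 𝒯, fc F T ^ 2) := by
  have h1 : ∀ x, (∑ T ∈ 𝒯, b T * ch T x - F x) ^ 2 =
      ∑ S ∈ 𝒯, ∑ T ∈ 𝒯, (b S * b T) * (ch S x * ch T x) -
        2 * ∑ T ∈ 𝒯, b T * (F x * ch T x) + F x ^ 2 := by
    intro x
    rw [sub_sq, sq (∑ T ∈ 𝒯, b T * ch T x), sum_mul_sum]
    congr 2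
    · exact sum_congr rfl fun S _ => sum_congr rfl fun T _ => by ring
    · rw [mul_assoc, sum_mul]
      congr 1
      exact sum_congr rfl fun T _ => by ring
  have h2 : ∑ x : Fin n → Bool, ∑ S ∈ 𝒯, ∑ T ∈ 𝒯, (b S * b T) * (ch S x * ch T x) =
      2 ^ n * ∑ T ∈ 𝒯, b T ^ 2 := by
    rw [sum_comm, mul_sum]
    refine sum_congr rfl fun S hS => ?_
    rw [sum_comm]
    have h3 : ∀ T ∈ 𝒯, ∑ x : Fin n → Bool, (b S * b T) * (ch S x * ch T x) =
        if S = T then 2 ^ n * b S ^ 2 else 0 := by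
      intro T _
      rw [← mul_sum, sum_ch_mul]
      split_ifs with h
      · subst h
        ring
      · ring
    rw [sum_congr rfl h3, sum_ite_eq, if_pos hS]
  have h3 : ∑ x : Fin n → Bool, 2 * ∑ T ∈ 𝒯, b T * (F x * ch T x) =
      2 ^ n * ∑ T ∈ 𝒯, 2 * (b T * fc F T) := by
    rw [← mul_sum, sum_comm, mul_sum, mul_sum]
    refine sum_congr rfl fun T _ => ?_
    rw [← mul_sum, sum_mul_ch]
    ring
  rw [sum_congr rfl fun x _ => h1 x, sum_add_distrib, sum_sub_distrib, h2, h3]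
  have h4 : ∑ T ∈ 𝒯, (b T - fc F T) ^ 2 =
      ∑ T ∈ 𝒯, b T ^ 2 - ∑ T ∈ 𝒯, 2 * (b T * fc F T) + ∑ T ∈ 𝒯, fc F T ^ 2 := by
    rw [← sum_sub_distrib, ← sum_add_distrib]
    exact sum_congr rfl fun T _ => by ring
  rw [h4]
  ring

/-- Bessel -/
lemma bessel (F : (Fin n → Bool) → ℝ) (𝒯 : Finset (Finset (Fin n))) :
    2 ^ n * ∑ T ∈ 𝒯, fc F T ^ 2 ≤ ∑ x, F x ^ 2 := by
  have h := pyth F 𝒯 (fc F)
  have h1 : ∑ T ∈ 𝒯, (fc F T - fc F T) ^ 2 = 0 := by
    refine sum_eq_zero fun T _ => by ring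
  rw [h1, mul_zero, zero_add] at h
  have h2 : 0 ≤ ∑ x, (∑ T ∈ 𝒯, fc F T * ch T x - F x) ^ 2 := sum_nonneg fun x _ => sq_nonneg _
  linarith

lemma ch_symm_sum (x y : Fin n → Bool) :
    ∑ T : Finset (Fin n), ch T x * ch T y = if x = y then (2 : ℝ) ^ n else 0 := by
  have h1 : ∀ T : Finset (Fin n), ch T x * ch T y = ∏ i ∈ T, sg (x i) * sg (y i) := by
    intro T
    unfold ch
    rw [prod_mul_distrib]
  rw [sum_congr rfl fun T _ => h1 T]
  have h2 := prod_one_add (s := (univ : Finset (Fin n))) (f := fun i => sg (x i) * sg (y i))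
  rw [powerset_univ] at h2
  rw [← h2]
  split_ifs with h
  · subst h
    rw [prod_congr rfl fun i _ => by rw [sg_mul_self]]
    rw [prod_const, card_univ, Fintype.card_fin]
    norm_num
  · obtain ⟨i, hi⟩ := Function.ne_iff.mp h
    refine prod_eq_zero (mem_univ i) ?_
    revert hi
    cases x i <;> cases y i <;> simp [sg]

/-- Parseval -/
lemma parseval (F : (Fin n → Bool) → ℝ) :
    2 ^ n * ∑ T, fc F T ^ 2 = ∑ x, F x ^ 2 := by
  have h1 : ∀ T : Finset (Fin n), fc F T ^ 2 =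
      (∑ x, ∑ y, F x * F y * (ch T x * ch T y)) / (2 ^ n) ^ 2 := by
    intro T
    unfold fc
    rw [div_pow]
    congr 1
    rw [sq, sum_mul_sum]
    exact sum_congr rfl fun x _ => sum_congr rfl fun y _ => by ring
  rw [sum_congr rfl fun T _ => h1 T, ← sum_div]
  have h2 : ∑ T : Finset (Fin n), ∑ x, ∑ y, F x * F y * (ch T x * ch T y) =
      2 ^ n * ∑ x, F x ^ 2 := by
    rw [sum_comm, mul_sum]
    refine sum_congr rfl fun x _ => ?_
    rw [sum_comm]
    have h3 : ∀ y, ∑ T : Finset (Fin n), F x * F y * (ch T x * ch T y) =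
        if x = y then 2 ^ n * F x ^ 2 else 0 := by
      intro y
      rw [← mul_sum, ch_symm_sum]
      split_ifs with h
      · subst h
        ring
      · ring
    rw [sum_congr rfl fun y _ => h3 y, sum_ite_eq, if_pos (mem_univ x)]
  rw [h2]
  field_simp

/-- flip a coordinate -/
def flip (i : Fin n) (x : Fin n → Bool) : Fin n → Bool := Function.update x i (!x i)

lemma flip_flip (i : Fin n) (x : Fin n → Bool) : flip i (flip i x) = x := by
  unfold flip
  rw [Function.update_self, Function.update_idem, Bool.not_not, Function.update_eq_self]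

lemma ch_flip (i : Fin n) (T : Finset (Fin n)) (x : Fin n → Bool) :
    ch T (flip i x) = if i ∈ T then -ch T x else ch T x := by
  unfold ch flip
  split_ifs with h
  · rw [← mul_prod_erase T _ h, ← mul_prod_erase T (fun j => sg (x j)) h, Function.update_self]
    have h1 : ∏ j ∈ T.erase i, sg (Function.update x i (!x i) j) = ∏ j ∈ T.erase i, sg (x j) :=
      prod_congr rfl fun j hj => by rw [Function.update_of_ne (ne_of_mem_erase hj)]
    rw [h1]
    cases x i <;> simp [sg]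
  · refine prod_congr rfl fun j hj => ?_
    rw [Function.update_of_ne]
    rintro rfl
    exact h hj

lemma sum_flip (i : Fin n) (F : (Fin n → Bool) → ℝ) : ∑ x, F (flip i x) = ∑ x, F x :=
  Equiv.sum_comp (⟨flip i, flip i, flip_flip i, flip_flip i⟩ : (Fin n → Bool) ≃ (Fin n → Bool)) F

lemma fc_diff (F : (Fin n → Bool) → ℝ) (i : Fin n) (T : Finset (Fin n)) :
    fc (fun x => (F x - F (flip i x)) / 2) T = if i ∈ T then fc F T else 0 := by
  have h1 : ∑ x, F (flip i x) * ch T x = ∑ x, F x * ch T (flip i x) := by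
    rw [← sum_flip i fun x => F x * ch T (flip i x)]
    exact sum_congr rfl fun x _ => by rw [flip_flip]
  have h2 : ∑ x, (F x - F (flip i x)) / 2 * ch T x =
      (∑ x, F x * ch T x - ∑ x, F (flip i x) * ch T x) / 2 := by
    rw [← sum_sub_distrib, sum_div]
    exact sum_congr rfl fun x _ => by ring
  unfold fc
  rw [h2, h1]
  simp only [ch_flip]
  split_ifs with h
  · have h3 : ∑ x, F x * -ch T x = -∑ x, F x * ch T x := by
      rw [← sum_neg_distrib]
      exact sum_congr rfl fun x _ => by ring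
    rw [h3]
    ring
  · simp

/-- The weight on large sets and the influences. -/
lemma influence (g : Hyp n) (d : ℕ) :
    (2 : ℝ) ^ n * ((d + 1) * ∑ T ∈ univ.filter (fun T : Finset (Fin n) => d < T.card),
      fc (fun x => sg (g x)) T ^ 2) ≤
      ∑ i : Fin n, ((univ.filter fun x => g x ≠ g (flip i x)).card : ℝ) := by
  have h1 : ∀ i : Fin n, 2 ^ n * ∑ T : Finset (Fin n),
      (if i ∈ T then fc (fun x => sg (g x)) T ^ 2 else 0) ≤
      ((univ.filter fun x => g x ≠ g (flip i x)).card : ℝ) := by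
    intro i
    have h2 := bessel (fun x => (sg (g x) - sg (g (flip i x))) / 2) univ
    have h3 : ∑ x : Fin n → Bool, ((sg (g x) - sg (g (flip i x))) / 2) ^ 2 =
        ((univ.filter fun x => g x ≠ g (flip i x)).card : ℝ) := by
      rw [card_filter, Nat.cast_sum]
      refine sum_congr rfl fun x _ => ?_
      cases g x <;> cases g (flip i x) <;> simp [sg] <;> norm_num
    rw [h3] at h2
    refine le_trans (le_of_eq ?_) h2
    congr 1
    refine sum_congr rfl fun T _ => ?_
    rw [fc_diff (fun x => sg (g x))]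
    split_ifs
    · rfl
    · norm_num
  refine le_trans ?_ (sum_le_sum fun i _ => h1 i)
  rw [← mul_sum, sum_comm]
  refine mul_le_mul_of_nonneg_left ?_ (by positivity)
  rw [mul_sum]
  have h2 : ∀ T : Finset (Fin n), ∑ i : Fin n,
      (if i ∈ T then fc (fun x => sg (g x)) T ^ 2 else 0) =
      T.card * fc (fun x => sg (g x)) T ^ 2 := by
    intro T
    rw [sum_ite_mem, univ_inter, sum_const, nsmul_eq_mul]
  rw [sum_congr rfl fun T _ => h2 T]
  refine le_trans (sum_le_sum (g := fun T => (T.card : ℝ) * fc (fun x => sg (g x)) T ^ 2)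
    fun T hT => ?_) (sum_le_sum_of_subset_of_nonneg (subset_univ _) fun T _ _ => by positivity)
  have h3 := (mem_filter.mp hT).2
  have h4 : (d : ℝ) + 1 ≤ T.card := by exact_mod_cast h3
  exact mul_le_mul_of_nonneg_right h4 (sq_nonneg _)

end Pool.Agent.Q226.LBD
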