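import Pool.Agent.Q226.LBD.Defs
import Pool.Agent.W964.Wd.Dnf

/-! # The lower bound -/

set_option autoImplicit false

open Finset

namespace Pool.Agent.Q226.LBD

open Pool.Agent.W964.Wd (IsDnf err)

lemma sg_mul_self (b : Bool) : sg b * sg b = 1 := by cases b <;> simp [sg]

lemma sg_sq (b : Bool) : sg b ^ 2 = 1 := by cases b <;> simp [sg]

variable {n N : ℕ}

/-- the character of `S` -/
noncomputable def ch {m : ℕ} (S : Finset (Fin m)) (x : Fin m → Bool) : ℝ := ∏ i ∈ S, sg (x i)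

lemma ch_eq {m : ℕ} (S : Finset (Fin m)) (x : Fin m → Bool) :
    ch S x = ∏ i, if i ∈ S then sg (x i) else 1 := by
  unfold ch
  rw [prod_ite_mem, univ_inter]

lemma ch_mul {m : ℕ} (S T : Finset (Fin m)) (x : Fin m → Bool) :
    ch S x * ch T x = ch (symmDiff S T) x := by
  rw [ch_eq, ch_eq, ch_eq, ← prod_mul_distrib]
  refine prod_congr rfl fun i _ => ?_
  by_cases h1 : i ∈ S <;> by_cases h2 : i ∈ T <;> simp [h1, h2, mem_symmDiff, sg_mul_self]

lemma ch_sq {m : ℕ} (S : Finset (Fin m)) (x : Fin m → Bool) : ch S x ^ 2 = 1 := by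
  unfold ch
  rw [← prod_pow]
  exact prod_eq_one fun i _ => sg_sq _

lemma sum_ch {m : ℕ} (S : Finset (Fin m)) :
    ∑ x : Fin m → Bool, ch S x = if S = ∅ then (2 : ℝ) ^ m else 0 := by
  have h1 : ∑ x : Fin m → Bool, ch S x =
      ∏ i : Fin m, ∑ b : Bool, (if i ∈ S then sg b else 1) := by
    have h2 := prod_univ_sum (fun _ : Fin m => (univ : Finset Bool))
      (fun (i : Fin m) (b : Bool) => if i ∈ S then sg b else (1 : ℝ))
    rw [Fintype.piFinset_univ] at h2
    rw [h2]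
    exact sum_congr rfl fun x _ => ch_eq S x
  rw [h1]
  by_cases hS : S = ∅
  · rw [if_pos hS]
    subst hS
    simp
  · rw [if_neg hS]
    obtain ⟨i, hi⟩ := nonempty_iff_ne_empty.mpr hS
    refine prod_eq_zero (mem_univ i) ?_
    simp [sg, hi]

lemma sum_ch_mul {m : ℕ} (S T : Finset (Fin m)) :
    ∑ x : Fin m → Bool, ch S x * ch T x = if S = T then (2 : ℝ) ^ m else 0 := by
  simp only [ch_mul, sum_ch]
  have : symmDiff S T = ∅ ↔ S = T := by
    rw [← bot_eq_empty, symmDiff_eq_bot]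
  simp only [this]

lemma sg_cases (b : Bool) : sg b = 1 ∨ sg b = -1 := by cases b <;> simp [sg]

/-- the parity of the variables in `S` -/
noncomputable def tg (S : Finset (Fin n)) : Hyp n :=
  Pool.Agent.W964.Wd.tgt Pool.Agent.W964.Wd.par (S.orderEmbOfFin rfl)

lemma sg_tg (S : Finset (Fin n)) (x : Fin n → Bool) : sg (tg S x) = ch S x := by
  have h1 : sg (tg S x) = Pool.Agent.W964.Wd.sg
      (Pool.Agent.W964.Wd.par fun h => x (S.orderEmbOfFin rfl h)) := rfl
  rw [h1, Pool.Agent.W964.Wd.sg_par]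
  unfold Pool.Agent.W964.Wd.chi ch
  conv_rhs => rw [← map_orderEmbOfFin_univ S rfl]
  rw [prod_map]
  rfl

lemma tg_dnf {S : Finset (Fin n)} {k s : ℕ} (hS : S.card = k) (hk : 1 ≤ k)
    (hs : 2 ^ (k - 1) + 1 ≤ s) : IsDnf s (tg S) := by
  subst hS
  exact Pool.Agent.W964.Wd.par_dnf hk hs _

/-- the sets of size `k` -/
abbrev Sub (n k : ℕ) : Type := {S : Finset (Fin n) // S.card = k}

lemma card_Sub (n k : ℕ) : Fintype.card (Sub n k) = n.choose k := by
  rw [Fintype.card_finset_len, Fintype.card_fin]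

/-- the number of sets of at most `D` labels -/
def cnt (N D : ℕ) : ℕ := (univ.filter fun T : Finset (Fin N) => T.card ≤ D).card

/-- The approximation of the matrix of the characters by a matrix of small rank. -/
lemma rank_bound (k : ℕ) {ι : Type} [Fintype ι] [DecidableEq ι] (F : Finset ι)
    (v : ι → Sub n k → ℝ) (c : (Fin n → Bool) → ι → ℝ) :
    (2 : ℝ) ^ n * ((n.choose k : ℝ) - F.card) ≤
      ∑ x : Fin n → Bool, ∑ S : Sub n k, (∑ i ∈ F, c x i * v i S - ch S.1 x) ^ 2 := by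
  classical
  let E := EuclideanSpace ℝ (Sub n k)
  let V : Submodule ℝ E := Submodule.span ℝ
    (Set.range fun i : F => (WithLp.toLp 2 (v i.1) : E))
  have hV : Module.finrank ℝ V ≤ F.card := by
    have := finrank_range_le_card (R := ℝ) fun i : F => (WithLp.toLp 2 (v i.1) : E)
    rw [Fintype.card_coe] at this
    exact this
  have hE : Module.finrank ℝ E = n.choose k := by
    rw [finrank_euclideanSpace, card_Sub]
  have hsum := V.finrank_add_finrank_orthogonal
  rw [hE] at hsum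
  let b := stdOrthonormalBasis ℝ Vᗮ
  let w : Fin (Module.finrank ℝ Vᗮ) → E := fun i => (b i : E)
  have hw : Orthonormal ℝ w := b.orthonormal.comp_linearIsometry Vᗮ.subtypeₗᵢ
  -- the columns
  let a : (Fin n → Bool) → E := fun x =>
    WithLp.toLp 2 fun S : Sub n k => ch S.1 x - ∑ i ∈ F, c x i * v i S
  let θ : (Fin n → Bool) → E := fun x => WithLp.toLp 2 fun S : Sub n k => ch S.1 x
  have hinner : ∀ x i, inner ℝ (w i) (a x) = inner ℝ (w i) (θ x) := by
    intro x i
    have h1 : a x = θ x - ∑ j ∈ F, c x j • (WithLp.toLp 2 (v j) : E) := by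
      refine PiLp.ext fun S => ?_
      have h0 : (∑ j ∈ F, c x j • (WithLp.toLp 2 (v j) : E)).ofLp S = ∑ i ∈ F, c x i * v i S := by
        rw [WithLp.ofLp_sum, Finset.sum_apply]
        rfl
      show _ = (θ x).ofLp S - (∑ j ∈ F, c x j • (WithLp.toLp 2 (v j) : E)).ofLp S
      rw [h0]
    have h2 : ∑ j ∈ F, c x j • (WithLp.toLp 2 (v j) : E) ∈ V := by
      refine Submodule.sum_mem _ fun j hj => Submodule.smul_mem _ _ ?_
      exact Submodule.subset_span ⟨⟨j, hj⟩, rfl⟩
    have h3 : inner ℝ (w i) (∑ j ∈ F, c x j • (WithLp.toLp 2 (v j) : E)) = (0 : ℝ) :=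
      Submodule.inner_left_of_mem_orthogonal h2 (b i).2
    rw [h1, inner_sub_right, h3, sub_zero]
  have hcol : ∀ x, ∑ i, inner ℝ (w i) (θ x) ^ 2 ≤
      ∑ S : Sub n k, (∑ i ∈ F, c x i * v i S - ch S.1 x) ^ 2 := by
    intro x
    have h1 := hw.sum_inner_products_le (a x) (s := univ)
    have h2 : ‖a x‖ ^ 2 = ∑ S : Sub n k, (∑ i ∈ F, c x i * v i S - ch S.1 x) ^ 2 := by
      rw [EuclideanSpace.norm_sq_eq]
      refine sum_congr rfl fun S _ => ?_
      simp only [a, Real.norm_eq_abs, sq_abs]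
      ring
    rw [h2] at h1
    refine le_trans (le_of_eq ?_) h1
    refine sum_congr rfl fun i _ => ?_
    rw [hinner, Real.norm_eq_abs, sq_abs]
  have hrow : ∀ i, ∑ x, inner ℝ (w i) (θ x) ^ 2 = (2 : ℝ) ^ n := by
    intro i
    have h1 : ∀ x, inner ℝ (w i) (θ x) = ∑ S : Sub n k, w i S * ch S.1 x := by
      intro x
      rw [PiLp.inner_apply]
      refine sum_congr rfl fun S _ => ?_
      show ch S.1 x * w i S = _
      exact mul_comm _ _
    have h2 : ∀ x, (∑ S : Sub n k, w i S * ch S.1 x) ^ 2 =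
        ∑ S : Sub n k, ∑ T : Sub n k, (w i S * w i T) * (ch S.1 x * ch T.1 x) := by
      intro x
      rw [sq, sum_mul_sum]
      exact sum_congr rfl fun S _ => sum_congr rfl fun T _ => by ring
    simp only [h1, h2]
    rw [sum_comm]
    have h3 : ∀ S : Sub n k, ∑ x : Fin n → Bool, ∑ T : Sub n k,
        (w i S * w i T) * (ch S.1 x * ch T.1 x) = (2 : ℝ) ^ n * w i S ^ 2 := by
      intro S
      rw [sum_comm]
      have h4 : ∀ T : Sub n k, ∑ x : Fin n → Bool, (w i S * w i T) * (ch S.1 x * ch T.1 x) =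
          if S = T then (2 : ℝ) ^ n * w i S ^ 2 else 0 := by
        intro T
        rw [← mul_sum, sum_ch_mul]
        by_cases h5 : S = T
        · subst h5
          rw [if_pos rfl, if_pos rfl]
          ring
        · rw [if_neg h5, if_neg (fun h6 => h5 (Subtype.ext h6)), mul_zero]
      rw [sum_congr rfl fun T _ => h4 T]
      simp
    rw [sum_congr rfl fun S _ => h3 S, ← mul_sum]
    have h5 : ∑ S : Sub n k, w i S ^ 2 = 1 := by
      have h6 := hw.1 i
      have h7 : ‖w i‖ ^ 2 = ∑ S : Sub n k, w i S ^ 2 := by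
        rw [EuclideanSpace.norm_sq_eq]
        exact sum_congr rfl fun S _ => by rw [Real.norm_eq_abs, sq_abs]
      rw [← h7, h6, one_pow]
    rw [h5, mul_one]
  have htot : ∑ x, ∑ i, inner ℝ (w i) (θ x) ^ 2 =
      (2 : ℝ) ^ n * (Module.finrank ℝ Vᗮ : ℝ) := by
    rw [sum_comm, sum_congr rfl fun i _ => hrow i, sum_const, card_univ, Fintype.card_fin,
      nsmul_eq_mul, mul_comm]
  have h8 : ((n.choose k : ℕ) : ℝ) - F.card ≤ (Module.finrank ℝ Vᗮ : ℝ) := by
    have : (n.choose k : ℕ) ≤ F.card + Module.finrank ℝ Vᗮ := by omega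
    have h9 : ((n.choose k : ℕ) : ℝ) ≤ F.card + (Module.finrank ℝ Vᗮ : ℝ) := by exact_mod_cast this
    linarith
  calc (2 : ℝ) ^ n * ((n.choose k : ℝ) - F.card) ≤ (2 : ℝ) ^ n * (Module.finrank ℝ Vᗮ : ℝ) :=
        mul_le_mul_of_nonneg_left h8 (by positivity)
    _ = _ := htot.symm
    _ ≤ _ := sum_le_sum fun x _ => hcol x

end Pool.Agent.Q226.LBD
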