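import Pool.Agent.Q226.LBD.Up

/-! # Parities with label degree `D` -/

set_option autoImplicit false

open Finset

namespace Pool.Agent.Q226.LBD

open Pool.Agent.W964.Wd (IsDnf err)
open Pool.Agent.H963J (E E_prod E_congr E_sum E_mul E_nonneg E_mono)

variable {n N : ℕ}

/-- the prediction for parities of `k` variables -/
noncomputable def parP (n N k D : ℕ) : Prediction n N := fun X y x =>
  ∑ R ∈ powersetCard k (univ : Finset (Fin n)),
    ((∑ T ∈ powersetCard D (univ : Finset (Fin N)), ∏ t ∈ T, (sg (y t) * ch R (X t))) /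
      (N.choose D : ℝ)) * ch R x

lemma parP_degree (k D : ℕ) (X : Fin N → Fin n → Bool) (x : Fin n → Bool) :
    LabelDegree D fun y => parP n N k D X y x := by
  classical
  refine ⟨fun T => if T.card = D then ∑ R ∈ powersetCard k (univ : Finset (Fin n)),
    (∏ t ∈ T, ch R (X t)) / (N.choose D : ℝ) * ch R x else 0, fun y => ?_⟩
  have h1 : ∑ T ∈ univ.filter (fun T : Finset (Fin N) => T.card ≤ D),
      (if T.card = D then ∑ R ∈ powersetCard k (univ : Finset (Fin n)),
        (∏ t ∈ T, ch R (X t)) / (N.choose D : ℝ) * ch R x else 0) * ∏ t ∈ T, sg (y t) =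
      ∑ T ∈ powersetCard D (univ : Finset (Fin N)), (∑ R ∈ powersetCard k (univ : Finset (Fin n)),
        (∏ t ∈ T, ch R (X t)) / (N.choose D : ℝ) * ch R x) * ∏ t ∈ T, sg (y t) := by
    symm
    refine sum_subset_zero_on_sdiff ?_ ?_ ?_
    · intro T hT
      rw [mem_filter]
      exact ⟨mem_univ _, (mem_powersetCard.mp hT).2.le⟩
    · intro T hT
      have h2 : ¬ T.card = D := fun h =>
        (mem_sdiff.mp hT).2 (mem_powersetCard.mpr ⟨subset_univ _, h⟩)
      rw [if_neg h2, zero_mul]
    · intro T hT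
      rw [if_pos (mem_powersetCard.mp hT).2]
  show parP n N k D X y x = _
  rw [h1]
  unfold parP
  simp only [sum_div, sum_mul]
  rw [sum_comm]
  refine sum_congr rfl fun T _ => sum_congr rfl fun R _ => ?_
  rw [prod_mul_distrib]
  ring

lemma fc_ch (S R : Finset (Fin n)) : fc (ch S) R = if S = R then 1 else 0 := by
  unfold fc
  rw [sum_ch_mul]
  split_ifs
  · exact div_self (by positivity)
  · simp

/-- The second moment of the elementary symmetric polynomials of independent signs. -/
lemma E_elem {U : Finset (Fin n)} (hU : U ≠ ∅) {D : ℕ} (hDN : D ≤ N) :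
    E (fun X : Fin N → Fin n → Bool =>
      ((∑ T ∈ powersetCard D (univ : Finset (Fin N)), ∏ t ∈ T, ch U (X t)) /
        (N.choose D : ℝ)) ^ 2) = 1 / N.choose D := by
  classical
  have hC : (0 : ℝ) < N.choose D := by exact_mod_cast Nat.choose_pos hDN
  have hE : E (ch U) = 0 := by
    rw [E_eq, sum_ch, if_neg hU, zero_div]
  have h1 : ∀ X : Fin N → Fin n → Bool,
      ((∑ T ∈ powersetCard D (univ : Finset (Fin N)), ∏ t ∈ T, ch U (X t)) /
        (N.choose D : ℝ)) ^ 2 =
      (1 / (N.choose D : ℝ) ^ 2) * ∑ T ∈ powersetCard D (univ : Finset (Fin N)),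
        ∑ T' ∈ powersetCard D (univ : Finset (Fin N)), ∏ t ∈ symmDiff T T', ch U (X t) := by
    intro X
    rw [div_pow, sq (∑ T ∈ _, _), sum_mul_sum, one_div, inv_mul_eq_div]
    congr 1
    refine sum_congr rfl fun T _ => sum_congr rfl fun T' _ => ?_
    have h2 : ∀ V : Finset (Fin N), ∏ t ∈ V, ch U (X t) = ∏ t, if t ∈ V then ch U (X t) else 1 := by
      intro V
      rw [prod_ite_mem, univ_inter]
    rw [h2 T, h2 T', h2 (symmDiff T T'), ← prod_mul_distrib]
    refine prod_congr rfl fun t _ => ?_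
    have h3 : ch U (X t) * ch U (X t) = 1 := by rw [← sq]; exact ch_sq _ _
    by_cases h4 : t ∈ T <;> by_cases h5 : t ∈ T' <;> simp [h4, h5, mem_symmDiff, h3]
  rw [E_congr h1, E_mul, E_sum]
  simp only [E_sum]
  have h2 : ∀ T T' : Finset (Fin N), E (fun X : Fin N → Fin n → Bool =>
      ∏ t ∈ symmDiff T T', ch U (X t)) = if T = T' then 1 else 0 := by
    intro T T'
    rw [E_prod, hE]
    split_ifs with h
    · subst h
      rw [symmDiff_self, bot_eq_empty, card_empty, pow_zero]
    · refine zero_pow ?_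
      rw [Ne, card_eq_zero, ← bot_eq_empty, symmDiff_eq_bot]
      exact h
  simp only [h2, sum_ite_eq]
  have h3 : ∑ T ∈ powersetCard D (univ : Finset (Fin N)),
      (if T ∈ powersetCard D (univ : Finset (Fin N)) then (1 : ℝ) else 0) = N.choose D := by
    rw [sum_congr rfl fun T hT => if_pos hT, sum_const, card_powersetCard, card_univ,
      Fintype.card_fin, nsmul_eq_mul, mul_one]
  rw [h3]
  field_simp

/-- The mean square error of the prediction for a parity. -/
theorem parP_mse {k D : ℕ} (hDN : D ≤ N) {S : Finset (Fin n)} (hS : S.card = k) :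
    mse (parP n N k D) (tg S) = ((n.choose k : ℝ) - 1) / N.choose D := by
  classical
  have hC : (0 : ℝ) < N.choose D := by exact_mod_cast Nat.choose_pos hDN
  have h2n : (0 : ℝ) < 2 ^ n := by positivity
  obtain ⟨𝒯, h𝒯⟩ : ∃ 𝒯, 𝒯 = powersetCard k (univ : Finset (Fin n)) := ⟨_, rfl⟩
  have hS𝒯 : S ∈ 𝒯 := by
    rw [h𝒯]
    exact mem_powersetCard.mpr ⟨subset_univ _, hS⟩
  obtain ⟨b, hb⟩ : ∃ b : (Fin N → Fin n → Bool) → Finset (Fin n) → ℝ, b = fun X R =>
      (∑ T ∈ powersetCard D (univ : Finset (Fin N)), ∏ t ∈ T, ch (symmDiff S R) (X t)) /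
        (N.choose D : ℝ) := ⟨_, rfl⟩
  have h1 : ∀ X : Fin N → Fin n → Bool,
      (∑ x, (parP n N k D X (fun i => tg S (X i)) x - sg (tg S x)) ^ 2) / 2 ^ n =
      ∑ R ∈ 𝒯.erase S, b X R ^ 2 := by
    intro X
    have h2 : ∀ x, parP n N k D X (fun i => tg S (X i)) x - sg (tg S x) =
        ∑ R ∈ 𝒯, b X R * ch R x - ch S x := by
      intro x
      unfold parP
      rw [sg_tg, ← h𝒯, hb]
      congr 1
      refine sum_congr rfl fun R _ => ?_
      congr 2
      refine sum_congr rfl fun T _ => prod_congr rfl fun t _ => ?_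
      rw [sg_tg, ch_mul]
    rw [sum_congr rfl fun x _ => by rw [h2 x], pyth (ch S) 𝒯 (b X)]
    have h3 : ∑ x, ch S x ^ 2 = (2 : ℝ) ^ n := by
      rw [sum_congr rfl fun x _ => ch_sq S x, sum_const, card_univ, Fintype.card_fun,
        Fintype.card_bool, Fintype.card_fin, nsmul_eq_mul, mul_one]
      push_cast
      rfl
    have h4 : ∑ T ∈ 𝒯, fc (ch S) T ^ 2 = 1 := by
      have : ∀ T ∈ 𝒯, fc (ch S) T ^ 2 = if S = T then 1 else 0 := by
        intro T _
        rw [fc_ch]
        split_ifs <;> norm_num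
      rw [sum_congr rfl this, sum_ite_eq, if_pos hS𝒯]
    have hbS : b X S = 1 := by
      rw [hb]
      simp only [symmDiff_self, bot_eq_empty]
      have h5 : ∀ T ∈ powersetCard D (univ : Finset (Fin N)),
          ∏ t ∈ T, ch (∅ : Finset (Fin n)) (X t) = 1 := by
        intro T _
        refine prod_eq_one fun t _ => ?_
        unfold ch
        rfl
      rw [sum_congr rfl h5, sum_const, card_powersetCard, card_univ, Fintype.card_fin,
        nsmul_eq_mul, mul_one, div_self hC.ne']
    rw [h3, h4, mul_one, sub_self, add_zero, mul_div_assoc, mul_comm, div_mul_cancel₀ _ h2n.ne',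
      ← add_sum_erase 𝒯 _ hS𝒯, fc_ch, if_pos rfl, hbS, sub_self]
    rw [zero_pow two_ne_zero, zero_add]
    refine sum_congr rfl fun R hR => ?_
    rw [fc_ch, if_neg (ne_of_mem_erase hR).symm, sub_zero]
  rw [mse_eq, E_congr h1, E_sum]
  have h2 : ∀ R ∈ 𝒯.erase S, E (fun X => b X R ^ 2) = 1 / (N.choose D : ℝ) := by
    intro R hR
    rw [hb]
    refine E_elem ?_ hDN
    intro h
    rw [← bot_eq_empty, symmDiff_eq_bot] at h
    exact (ne_of_mem_erase hR) h.symm
  rw [sum_congr rfl h2, sum_const, nsmul_eq_mul, card_erase_of_mem hS𝒯, h𝒯, card_powersetCard,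
    card_univ, Fintype.card_fin, mul_one_div, Nat.cast_sub, Nat.cast_one]
  have hkn : k ≤ n := by
    have := card_le_univ S
    rwa [hS, Fintype.card_fin] at this
  exact Nat.choose_pos hkn

end Pool.Agent.Q226.LBD
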