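import Pool.Agent.Q226.LBD.Avg
import Pool.Agent.Q226.LBD.Par

/-! # Final forms -/

set_option autoImplicit false

open Finset

namespace Pool.Agent.Q226.LBD

open Pool.Agent.W964.Wd (IsDnf err)

variable {n N : ℕ}

lemma cnt_le (N D : ℕ) : (cnt N D : ℝ) ≤ ((N : ℝ) + 1) ^ D := by
  exact_mod_cast card_small N D

/-- A lower bound for binomial coefficients. -/
lemma choose_low {β : ℝ} (hβ2 : β ≤ 2) {k : ℕ} (hk : 1 ≤ k) (hn : 1 ≤ n)
    (hkn : 2 * (k : ℝ) ≤ (n : ℝ) ^ (β / 2)) :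
    k ≤ n ∧ (n : ℝ) ^ ((1 - β / 2) * k) ≤ n.choose k := by
  have hn1 : (1 : ℝ) ≤ n := by exact_mod_cast hn
  have hn0 : (0 : ℝ) < n := by linarith
  have hk0 : (0 : ℝ) < k := by exact_mod_cast hk
  have h1 : 2 * (k : ℝ) ≤ n := by
    refine hkn.trans ?_
    calc (n : ℝ) ^ (β / 2) ≤ (n : ℝ) ^ (1 : ℝ) :=
          Real.rpow_le_rpow_of_exponent_le hn1 (by linarith)
      _ = n := Real.rpow_one _
  have h2 : 2 * k ≤ n := by exact_mod_cast h1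
  refine ⟨by omega, ?_⟩
  have h3 := Nat.pow_le_choose (α := ℝ) k n
  refine le_trans ?_ h3
  rw [le_div_iff₀ (by exact_mod_cast k.factorial_pos)]
  have h4 : (k.factorial : ℝ) ≤ (k : ℝ) ^ k := by exact_mod_cast Nat.factorial_le_pow k
  have h5 : (n : ℝ) / 2 ≤ ((n + 1 - k : ℕ) : ℝ) := by
    rw [div_le_iff₀ (by norm_num)]
    have : n ≤ (n + 1 - k) * 2 := by omega
    exact_mod_cast this
  have h6 : (n : ℝ) ^ ((1 - β / 2) * k) = ((n : ℝ) ^ (1 - β / 2)) ^ k := by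
    rw [Real.rpow_mul hn0.le, Real.rpow_natCast]
  have h7 : (n : ℝ) ^ (1 - β / 2) * k ≤ (n : ℝ) / 2 := by
    rw [le_div_iff₀ (by norm_num)]
    calc (n : ℝ) ^ (1 - β / 2) * k * 2 = (n : ℝ) ^ (1 - β / 2) * (2 * k) := by ring
      _ ≤ (n : ℝ) ^ (1 - β / 2) * (n : ℝ) ^ (β / 2) :=
          mul_le_mul_of_nonneg_left hkn (by positivity)
      _ = n := by
          rw [← Real.rpow_add hn0]
          have : 1 - β / 2 + β / 2 = 1 := by ring
          rw [this, Real.rpow_one]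
  calc (n : ℝ) ^ ((1 - β / 2) * k) * k.factorial ≤ ((n : ℝ) ^ (1 - β / 2)) ^ k * (k : ℝ) ^ k := by
        rw [h6]
        exact mul_le_mul_of_nonneg_left h4 (by positivity)
    _ = ((n : ℝ) ^ (1 - β / 2) * k) ^ k := (mul_pow _ _ _).symm
    _ ≤ ((n + 1 - k : ℕ) : ℝ) ^ k := pow_le_pow_left₀ (by positivity) (h7.trans h5) _

/-- The asymptotic form of the lower bound. -/
theorem low_asym {R : Type} [Fintype R] [Nonempty R] {D : ℕ} {k s : ℕ} {ζ β : ℝ} (hβ2 : β ≤ 2)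
    (hn : 1 ≤ n) (hk : 1 ≤ k) (hkn : 2 * (k : ℝ) ≤ (n : ℝ) ^ (β / 2))
    (hs : 2 ^ (k - 1) + 1 ≤ s) (hN : ((N : ℝ) + 1) ^ D ≤ (n : ℝ) ^ ((1 - β) * k))
    (hζ : 0 ≤ ζ) (hζ1 : ζ ≤ 1) (A : Learner R n N)
    (p : Prediction n N) (hp : ∀ X x, LabelDegree D fun y => p X y x)
    (hd : ∀ f : Hyp n, IsDnf s f → dist (meanLabel A) p f ≤ ζ) :
    ∃ f : Hyp n, IsDnf s f ∧
      1 / 2 - Real.sqrt ζ / 2 - (n : ℝ) ^ (-(β / 4 * k)) ≤ meanErr A f := by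
  have hn1 : (1 : ℝ) ≤ n := by exact_mod_cast hn
  have hn0 : (0 : ℝ) < n := by linarith
  obtain ⟨h1, h2⟩ := choose_low hβ2 hk hn hkn
  obtain ⟨f, hf, hle⟩ := low hk h1 hs hζ A p hp hd
  refine ⟨f, hf, le_trans ?_ hle⟩
  have h3 : Real.sqrt (cnt N D / n.choose k) ≤ (n : ℝ) ^ (-(β / 4 * k)) := by
    rw [Real.sqrt_le_left (by positivity)]
    have h4 : (0 : ℝ) < n.choose k := by exact_mod_cast Nat.choose_pos h1
    rw [div_le_iff₀ h4]
    calc (cnt N D : ℝ) ≤ (n : ℝ) ^ ((1 - β) * k) := (cnt_le N D).trans hN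
      _ = ((n : ℝ) ^ (-(β / 4 * k))) ^ 2 * (n : ℝ) ^ ((1 - β / 2) * k) := by
          rw [← Real.rpow_natCast, ← Real.rpow_mul hn0.le, ← Real.rpow_add hn0]
          congr 1
          push_cast
          ring
      _ ≤ _ := mul_le_mul_of_nonneg_left h2 (by positivity)
  have h5 : Real.sqrt ζ ≤ 1 := by
    rw [Real.sqrt_le_one]
    exact hζ1
  have h6 : (1 + Real.sqrt ζ) * Real.sqrt (cnt N D / n.choose k) ≤
      2 * (n : ℝ) ^ (-(β / 4 * k)) :=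
    mul_le_mul (by linarith) h3 (Real.sqrt_nonneg _) (by norm_num)
  linarith

end Pool.Agent.Q226.LBD
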