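import Pool.Agent.Q226.LBD.Dnf
import Pool.Agent.H963J.Core

/-! # Upper bounds -/

set_option autoImplicit false

open Finset

namespace Pool.Agent.Q226.LBD

open Pool.Agent.W964.Wd (IsDnf err)
open Pool.Agent.H963J (E E_prod E_congr E_sum E_mul E_nonneg E_mono)

variable {n N : ℕ}

lemma E_eq (F : (Fin n → Bool) → ℝ) : E F = (∑ x, F x) / 2 ^ n := by
  unfold E
  rw [Fintype.card_fun, Fintype.card_bool, Fintype.card_fin]
  push_cast
  rfl

lemma E_eq2 (F : (Fin N → Fin n → Bool) → ℝ) : E F = (∑ X, F X) / (2 ^ n) ^ N := by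
  unfold E
  rw [Fintype.card_fun, Fintype.card_fun, Fintype.card_bool, Fintype.card_fin, Fintype.card_fin]
  push_cast
  rfl

lemma mse_eq (p : Prediction n N) (f : Hyp n) :
    mse p f = E fun X => (∑ x, (p X (fun i => f (X i)) x - sg (f x)) ^ 2) / 2 ^ n := by
  unfold mse
  rw [E_eq2, ← sum_div, div_div, pow_succ']

/-- The variance of a mean value of independent random variables. -/
lemma variance (hN : 1 ≤ N) (Y : (Fin n → Bool) → ℝ) (h0 : E Y = 0) (h1 : E (fun x => Y x ^ 2) ≤ 1) :
    E (fun X : Fin N → Fin n → Bool => ((∑ i, Y (X i)) / N) ^ 2) ≤ 1 / N := by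
  have hN0 : (0 : ℝ) < N := by exact_mod_cast hN
  have h2 : ∀ X : Fin N → Fin n → Bool, ((∑ i, Y (X i)) / N) ^ 2 =
      (1 / (N : ℝ) ^ 2) * ∑ i, ∑ j, Y (X i) * Y (X j) := by
    intro X
    rw [div_pow, sq (∑ i, Y (X i)), sum_mul_sum]
    ring
  have h3 : ∀ i j : Fin N, E (fun X : Fin N → Fin n → Bool => Y (X i) * Y (X j)) ≤
      if i = j then 1 else 0 := by
    intro i j
    split_ifs with h
    · subst h
      have h4 := E_prod (N := N) (fun x : Fin n → Bool => Y x ^ 2) {i}
      rw [card_singleton, pow_one] at h4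
      have h5 : ∀ X : Fin N → Fin n → Bool, ∏ t ∈ ({i} : Finset (Fin N)), Y (X t) ^ 2 =
          Y (X i) * Y (X i) := by
        intro X
        rw [prod_singleton, sq]
      rw [E_congr h5] at h4
      rw [h4]
      exact h1
    · have h4 := E_prod (N := N) Y {i, j}
      rw [h0, card_pair h, E_congr fun X => prod_pair h] at h4
      rw [h4]
      norm_num
  rw [E_congr h2, E_mul, E_sum]
  simp only [E_sum]
  calc _ ≤ (1 / (N : ℝ) ^ 2) * ∑ i : Fin N, ∑ j : Fin N, (if i = j then (1 : ℝ) else 0) :=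
        mul_le_mul_of_nonneg_left (sum_le_sum fun i _ => sum_le_sum fun j _ => h3 i j)
          (by positivity)
    _ = 1 / N := by
        simp
        field_simp

/-- The low-degree algorithm, as a prediction. -/
noncomputable def ker (n N d : ℕ) : Prediction n N := fun X y x =>
  ∑ T ∈ univ.filter (fun T : Finset (Fin n) => T.card ≤ d),
    ((∑ i, sg (y i) * ch T (X i)) / N) * ch T x

lemma sum_le_one {g : Finset (Fin N) → ℝ} (hg : ∀ U : Finset (Fin N), U.card ≠ 1 → g U = 0)
    {D : ℕ} (hD : 1 ≤ D) :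
    ∑ U ∈ univ.filter (fun U : Finset (Fin N) => U.card ≤ D), g U = ∑ i : Fin N, g {i} := by
  classical
  symm
  refine sum_of_injOn (fun i => {i}) ?_ ?_ ?_ ?_
  · intro i _ j _ h
    exact singleton_injective h
  · intro i _
    simp only [coe_filter, Set.mem_setOf_eq, mem_univ, true_and, card_singleton]
    exact hD
  · intro U _ hU
    refine hg U ?_
    intro h
    obtain ⟨i, hi⟩ := card_eq_one.mp h
    exact hU ⟨i, by simp, hi.symm⟩
  · intro i _
    rfl

lemma ker_degree (d : ℕ) (X : Fin N → Fin n → Bool) (x : Fin n → Bool) :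
    LabelDegree 1 fun y => ker n N d X y x := by
  classical
  refine ⟨fun U => if U.card = 1 then ∑ i ∈ U,
    (∑ T ∈ univ.filter (fun T : Finset (Fin n) => T.card ≤ d), ch T (X i) / N * ch T x) else 0,
    fun y => ?_⟩
  rw [sum_le_one (D := 1) (g := fun U => (if U.card = 1 then ∑ i ∈ U,
    (∑ T ∈ univ.filter (fun T : Finset (Fin n) => T.card ≤ d), ch T (X i) / N * ch T x) else 0) *
      ∏ t ∈ U, sg (y t)) (fun U hU => by rw [if_neg hU, zero_mul]) le_rfl]
  show ker n N d X y x = _
  unfold ker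
  have h1 : ∀ i : Fin N, (if ({i} : Finset (Fin N)).card = 1 then ∑ i ∈ ({i} : Finset (Fin N)),
      (∑ T ∈ univ.filter (fun T : Finset (Fin n) => T.card ≤ d), ch T (X i) / N * ch T x) else 0) *
      ∏ t ∈ ({i} : Finset (Fin N)), sg (y t) =
      ∑ T ∈ univ.filter (fun T : Finset (Fin n) => T.card ≤ d),
        (sg (y i) * ch T (X i) / N) * ch T x := by
    intro i
    rw [if_pos (card_singleton i), sum_singleton, prod_singleton, sum_mul]
    exact sum_congr rfl fun T _ => by ring
  rw [sum_congr rfl fun i _ => h1 i, sum_comm]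
  refine sum_congr rfl fun T _ => ?_
  rw [← sum_mul, ← sum_div]

lemma ker_mse (hN : 1 ≤ N) (d : ℕ) (f : Hyp n) :
    mse (ker n N d) f ≤ ((univ.filter fun T : Finset (Fin n) => T.card ≤ d).card : ℝ) / N +
      (1 - ∑ T ∈ univ.filter (fun T : Finset (Fin n) => T.card ≤ d),
        fc (fun x => sg (f x)) T ^ 2) := by
  classical
  obtain ⟨𝒯, h𝒯⟩ : ∃ 𝒯, 𝒯 = univ.filter (fun T : Finset (Fin n) => T.card ≤ d) := ⟨_, rfl⟩
  rw [← h𝒯]
  obtain ⟨F, hF⟩ : ∃ F : (Fin n → Bool) → ℝ, F = fun x => sg (f x) := ⟨_, rfl⟩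
  have h2n : (0 : ℝ) < 2 ^ n := by positivity
  have hsq : ∑ x, F x ^ 2 = (2 : ℝ) ^ n := by
    rw [hF, sum_congr rfl fun x _ => sg_sq _, sum_const, card_univ, Fintype.card_fun,
      Fintype.card_bool, Fintype.card_fin, nsmul_eq_mul, mul_one]
    push_cast
    rfl
  have h1 : ∀ X : Fin N → Fin n → Bool,
      (∑ x, (ker n N d X (fun i => f (X i)) x - sg (f x)) ^ 2) / 2 ^ n =
      ∑ T ∈ 𝒯, ((∑ i, (F (X i) * ch T (X i) - fc F T)) / N) ^ 2 +
        (1 - ∑ T ∈ 𝒯, fc F T ^ 2) := by
    intro X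
    have h2 := pyth F 𝒯 (fun T => (∑ i, sg (f (X i)) * ch T (X i)) / N)
    have h3 : ∑ x, (ker n N d X (fun i => f (X i)) x - sg (f x)) ^ 2 =
        ∑ x, (∑ T ∈ 𝒯, (∑ i, sg (f (X i)) * ch T (X i)) / N * ch T x - F x) ^ 2 := by
      rw [hF, h𝒯]
      rfl
    rw [h3, h2, hsq]
    have h4 : ∀ T : Finset (Fin n), (∑ i, sg (f (X i)) * ch T (X i)) / N - fc F T =
        (∑ i, (F (X i) * ch T (X i) - fc F T)) / N := by
      intro T
      have hN0 : (N : ℝ) ≠ 0 := by
        have : 0 < N := hN
        exact_mod_cast this.ne'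
      rw [sum_sub_distrib, sum_const, card_univ, Fintype.card_fin, nsmul_eq_mul, hF]
      field_simp
    rw [sum_congr rfl fun T _ => by rw [h4 T]]
    field_simp
  have hfc : ∀ T, E (fun x => F x * ch T x) = fc F T := by
    intro T
    rw [E_eq]
    rfl
  have h5 : ∀ T : Finset (Fin n), E (fun X : Fin N → Fin n → Bool =>
      ((∑ i, (F (X i) * ch T (X i) - fc F T)) / N) ^ 2) ≤ 1 / N := by
    intro T
    refine variance hN (fun x => F x * ch T x - fc F T) ?_ ?_
    · rw [Pool.Agent.H963J.E_sub, hfc, Pool.Agent.H963J.E_const, sub_self]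
    · have h6 : ∀ x, (F x * ch T x - fc F T) ^ 2 =
          (1 + fc F T ^ 2) - (2 * fc F T) * (F x * ch T x) := by
        intro x
        have h7 : F x ^ 2 = 1 := by rw [hF]; exact sg_sq _
        have h8 := ch_sq T x
        have h9 : (F x * ch T x) ^ 2 = 1 := by rw [mul_pow, h7, h8, one_mul]
        have : (F x * ch T x - fc F T) ^ 2 = (F x * ch T x) ^ 2 -
            (2 * fc F T) * (F x * ch T x) + fc F T ^ 2 := by ring
        rw [this, h9]
        ring
      rw [E_congr h6, Pool.Agent.H963J.E_sub, Pool.Agent.H963J.E_const, E_mul, hfc]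
      nlinarith [sq_nonneg (fc F T)]
  rw [mse_eq, E_congr h1, Pool.Agent.H963J.E_add, Pool.Agent.H963J.E_const, E_sum]
  have h6 : ∑ T ∈ 𝒯, E (fun X : Fin N → Fin n → Bool =>
      ((∑ i, (F (X i) * ch T (X i) - fc F T)) / N) ^ 2) ≤ (𝒯.card : ℝ) / N := by
    refine (sum_le_sum fun T _ => h5 T).trans (le_of_eq ?_)
    rw [sum_const, nsmul_eq_mul, mul_one_div]
  rw [hF] at h6 ⊢
  linarith

lemma card_small (n d : ℕ) :
    (univ.filter fun T : Finset (Fin n) => T.card ≤ d).card ≤ (n + 1) ^ d := by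
  classical
  have h1 : (univ.filter fun T : Finset (Fin n) => T.card ≤ d) ⊆
      (range (d + 1)).biUnion fun j => powersetCard j (univ : Finset (Fin n)) := by
    intro T hT
    rw [mem_biUnion]
    exact ⟨T.card, mem_range.mpr (Nat.lt_succ_of_le (mem_filter.mp hT).2),
      mem_powersetCard.mpr ⟨subset_univ _, rfl⟩⟩
  refine (card_le_card h1).trans (card_biUnion_le.trans ?_)
  rw [add_pow]
  refine sum_le_sum fun j hj => ?_
  rw [card_powersetCard, card_univ, Fintype.card_fin, one_pow, mul_one]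
  have h2 : 1 ≤ d.choose j := Nat.choose_pos (Nat.lt_succ_iff.mp (mem_range.mp hj))
  calc n.choose j ≤ n ^ j := Nat.choose_le_pow n j
    _ = n ^ j * 1 := (mul_one _).symm
    _ ≤ n ^ j * d.choose j := Nat.mul_le_mul_left _ h2

/-- the hypothesis given by the sign of the prediction -/
noncomputable def signLearner (p : Prediction n N) : Learner Unit n N :=
  fun _ X y x => by
    classical
    exact decide (p X y x < 0)

lemma sign_dist (p : Prediction n N) (f : Hyp n) :
    dist (meanLabel (signLearner p)) p f ≤ mse p f := by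
  unfold dist mse
  refine div_le_div_of_nonneg_right ?_ (by positivity)
  refine sum_le_sum fun X _ => sum_le_sum fun x _ => ?_
  have h1 : meanLabel (signLearner p) X (fun i => f (X i)) x =
      sg (signLearner p () X (fun i => f (X i)) x) := by
    unfold meanLabel
    simp
  rw [h1]
  generalize hq : p X (fun i => f (X i)) x = q
  have h2 : signLearner p () X (fun i => f (X i)) x = decide (q < 0) := by
    unfold signLearner
    rw [hq]
  rw [h2]
  by_cases h3 : q < 0
  · rcases hf : f x with _ | _ <;> simp [sg, h3] <;> nlinarith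
  · have h4 : 0 ≤ q := not_lt.mp h3
    rcases hf : f x with _ | _ <;> simp [sg, h3] <;> nlinarith

lemma sign_err (p : Prediction n N) (f : Hyp n) : meanErr (signLearner p) f ≤ mse p f := by
  unfold meanErr mse
  rw [Fintype.card_unit, Nat.cast_one, one_mul]
  simp only [univ_unique, sum_singleton]
  rw [pow_succ, ← div_div, div_right_comm]
  refine div_le_div_of_nonneg_right ?_ (by positivity)
  rw [sum_div]
  refine sum_le_sum fun X _ => ?_
  unfold err
  refine div_le_div_of_nonneg_right ?_ (by positivity)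
  rw [card_filter, Nat.cast_sum]
  refine sum_le_sum fun x _ => ?_
  generalize hq : p X (fun i => f (X i)) x = q
  have h2 : signLearner p default X (fun i => f (X i)) x = decide (q < 0) := by
    unfold signLearner
    rw [hq]
  rw [h2]
  by_cases h3 : q < 0
  · rcases hf : f x with _ | _
    · simp [sg, h3]
      linarith [neg_le_abs (q - 1)]
    · simp [sg, h3]
      positivity
  · have h4 : 0 ≤ q := not_lt.mp h3
    rcases hf : f x with _ | _
    · simp [sg, h3]
      positivity
    · simp [sg, h3]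
      linarith [le_abs_self (q + 1)]

/-- Learning DNF formulas with label degree one. -/
theorem up_dnf {s w d : ℕ} {ε : ℝ} (hw : 16 * s ≤ ε * 2 ^ w)
    (hd : 16 * w ≤ ε * (d + 1)) (hN : 2 * ((n : ℝ) + 1) ^ d ≤ ε * N) {f : Hyp n}
    (hf : IsDnf s f) : mse (ker n N d) f ≤ ε := by
  have hN1 : 1 ≤ N := by
    by_contra h
    have h0 : N = 0 := by omega
    subst h0
    have : (0 : ℝ) < 2 * ((n : ℝ) + 1) ^ d := by positivity
    simp at hN
    linarith
  have hNR : (0 : ℝ) < N := by exact_mod_cast hN1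
  have h1 := ker_mse hN1 d f
  have h2 := dnf_weight hf w d
  have h3 : ((univ.filter fun T : Finset (Fin n) => T.card ≤ d).card : ℝ) / N ≤ ε / 2 := by
    rw [div_le_iff₀ hNR]
    have h4 : ((univ.filter fun T : Finset (Fin n) => T.card ≤ d).card : ℝ) ≤
        ((n : ℝ) + 1) ^ d := by exact_mod_cast card_small n d
    linarith
  have h4 : 4 * (w : ℝ) / (d + 1) ≤ ε / 4 := by
    rw [div_le_iff₀ (by positivity)]
    linarith
  have h5 : 4 * (s : ℝ) / 2 ^ w ≤ ε / 4 := by
    rw [div_le_iff₀ (by positivity)]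
    linarith
  linarith

end Pool.Agent.Q226.LBD
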